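import Mathlib
import Pool.Agent.W757.BL.Defs

set_option autoImplicit false

open Set Filter Topology

namespace Pool.Agent.W797.BL
open Pool.Agent.W757.BL

theorem t_ROT : S_ROT := by
  intro L ι F k₁ hL hF htri hfill
  have hgt : ∀ k s, s < F k s := fun k => (hF k).2.2.2
  have hmono : ∀ k, StrictMono (F k) := fun k => (hF k).2.1
  have hcont : ∀ k, Continuous (F k) := fun k => (hF k).1
  have hlt : ∀ j k z, F j z < F k z → ∀ s, F j s < F k s := by
    intro j k z h s
    rcases htri j k with h1 | h1 | h1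
    · exact h1 s
    · exact absurd (h1 z) (not_lt.2 h.le)
    · rw [h1] at h
      exact absurd h (lt_irrefl _)
  have hle : ∀ j k z, F j z ≤ F k z → ∀ s, F j s ≤ F k s := by
    intro j k z h s
    rcases htri j k with h1 | h1 | h1
    · exact (h1 s).le
    · exact absurd (h1 z) (not_lt.2 h)
    · rw [h1]
  have htot : ∀ j k, (∀ s, F j s ≤ F k s) ∨ (∀ s, F k s ≤ F j s) := by
    intro j k
    rcases le_total (F j 0) (F k 0) with h | h
    · exact Or.inl (hle j k 0 h)
    · exact Or.inr (hle k j 0 h)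
  have hit : ∀ j k, (∀ s, F j s ≤ F k s) → ∀ n s, (F j)^[n] s ≤ (F k)^[n] s := by
    intro j k h n s
    induction n with
    | zero => exact le_rfl
    | succ n ih =>
      rw [Function.iterate_succ_apply', Function.iterate_succ_apply']
      exact ((hmono j).monotone ih).trans (h _)
  -- continuity at a point
  have hc1 : ∀ j z ε, 0 < ε → ∃ δ, 0 < δ ∧ F j (z + δ) < F j z + ε := by
    intro j z ε hε
    obtain ⟨δ, hδ, h⟩ := Metric.continuousAt_iff.1 ((hcont j).continuousAt (x := z)) ε hε
    refine ⟨δ / 2, by positivity, ?_⟩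
    have := @h (z + δ / 2) (by rw [Real.dist_eq, add_sub_cancel_left, abs_of_pos (by positivity)]; linarith)
    rw [Real.dist_eq, abs_lt] at this
    linarith [this.2]
  have hc2 : ∀ j z ε, 0 < ε → ∃ δ, 0 < δ ∧ F j z - ε < F j (z - δ) := by
    intro j z ε hε
    obtain ⟨δ, hδ, h⟩ := Metric.continuousAt_iff.1 ((hcont j).continuousAt (x := z)) ε hε
    refine ⟨δ / 2, by positivity, ?_⟩
    have := @h (z - δ / 2) (by
      rw [Real.dist_eq, show z - δ / 2 - z = -(δ / 2) by ring, abs_neg, abs_of_pos (by positivity)]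
      linarith)
    rw [Real.dist_eq, abs_lt] at this
    linarith [this.1]
  -- approximation from below
  have hlow : ∀ j, (∀ s, F j s ≤ F k₁ s) → ∀ (s : ℝ) (n : ℕ) (ε : ℝ), 0 < ε →
      ∃ j', (∀ t, F j' t < F j t) ∧ (F j)^[n] s - ε < (F j')^[n] s := by
    intro j hj s n
    induction n with
    | zero =>
      intro ε hε
      obtain ⟨j', hj'⟩ := hfill s ((s + F j s) / 2) (by linarith [hgt j s])
        (by linarith [hgt j s, hj s])
      refine ⟨j', hlt j' j s (by rw [hj']; linarith [hgt j s]), ?_⟩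
      simp only [Function.iterate_zero, id]
      linarith
    | succ n ih =>
      intro ε hε
      obtain ⟨δ, hδ, hδ2⟩ := hc2 j ((F j)^[n] s) (ε / 2) (by positivity)
      obtain ⟨j1, hj1, hj1'⟩ := ih δ hδ
      set z := (F j)^[n] s - δ with hz
      have hzlt := hgt j z
      obtain ⟨j2, hj2⟩ := hfill z (max ((z + F j z) / 2) (F j z - ε / 4))
        (lt_of_lt_of_le (by linarith) (le_max_left _ _))
        ((max_le (by linarith) (by linarith)).trans (hj z))
      have hj2lt : F j2 z < F j z := by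
        rw [hj2]
        exact max_lt (by linarith) (by linarith)
      have hj2' := hlt j2 j z hj2lt
      have hj2ge : F j z - ε / 4 ≤ F j2 z := by
        rw [hj2]
        exact le_max_right _ _
      have key : ∀ j', (∀ t, F j1 t ≤ F j' t) → (∀ t, F j2 t ≤ F j' t) →
          (F j)^[n + 1] s - ε < (F j')^[n + 1] s := by
        intro j' a b
        rw [Function.iterate_succ_apply', Function.iterate_succ_apply']
        have h1 : z ≤ (F j')^[n] s := hj1'.le.trans (hit _ _ a n s)
        have h2 : F j' z ≤ F j' ((F j')^[n] s) := (hmono j').monotone h1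
        have h3 := b z
        linarith
      rcases htot j1 j2 with h | h
      · exact ⟨j2, hj2', key j2 h (fun _ => le_rfl)⟩
      · exact ⟨j1, hj1, key j1 (fun _ => le_rfl) h⟩
  -- approximation from above
  have hupp : ∀ j, (∀ s, F j s < F k₁ s) → ∀ (s : ℝ) (n : ℕ) (ε : ℝ), 0 < ε →
      ∃ j', (∀ t, F j t < F j' t) ∧ (∀ t, F j' t ≤ F k₁ t) ∧ (F j')^[n] s < (F j)^[n] s + ε := by
    intro j hj s n
    induction n with
    | zero =>
      intro ε hε
      refine ⟨k₁, hj, fun _ => le_rfl, ?_⟩
      simp only [Function.iterate_zero, id]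
      linarith
    | succ n ih =>
      intro ε hε
      obtain ⟨δ, hδ, hδ2⟩ := hc1 j ((F j)^[n] s) (ε / 2) (by positivity)
      obtain ⟨j1, hj1, hj1k, hj1'⟩ := ih δ hδ
      set z := (F j)^[n] s + δ with hz
      have hzlt := hgt j z
      have hjz := hj z
      have hw : F j z < min (F k₁ z) (F j z + ε / 4) := lt_min hjz (by linarith)
      obtain ⟨j2, hj2⟩ := hfill z (min (F k₁ z) (F j z + ε / 4)) (by linarith) (min_le_left _ _)
      have hj2lt := hlt j j2 z (by rw [hj2]; exact hw)
      have hj2k := hle j2 k₁ z (by rw [hj2]; exact min_le_left _ _)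
      have hj2le : F j2 z ≤ F j z + ε / 4 := by
        rw [hj2]
        exact min_le_right _ _
      have key : ∀ j', (∀ t, F j' t ≤ F j1 t) → (∀ t, F j' t ≤ F j2 t) →
          (F j')^[n + 1] s < (F j)^[n + 1] s + ε := by
        intro j' a b
        rw [Function.iterate_succ_apply', Function.iterate_succ_apply']
        have h1 : (F j')^[n] s ≤ z := (hit _ _ a n s).trans hj1'.le
        have h2 : F j' ((F j')^[n] s) ≤ F j' z := (hmono j').monotone h1
        have h3 := b z
        linarith
      rcases htot j1 j2 with h | h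
      · exact ⟨j1, hj1, hj1k, key j1 (fun _ => le_rfl) h⟩
      · exact ⟨j2, hj2lt, hj2k, key j2 h (fun _ => le_rfl)⟩
  -- small maps
  have hsmall : ∀ (s : ℝ) (n : ℕ) (ε : ℝ), 0 < ε →
      ∃ j, (∀ t, F j t ≤ F k₁ t) ∧ (F j)^[n] s < s + ε := by
    intro s n
    induction n with
    | zero =>
      intro ε hε
      refine ⟨k₁, fun _ => le_rfl, ?_⟩
      simp only [Function.iterate_zero, id]
      linarith
    | succ n ih =>
      intro ε hε
      obtain ⟨j1, hj1, hj1'⟩ := ih (ε / 2) (by positivity)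
      set z := s + ε / 2 with hz
      have hzlt := hgt k₁ z
      obtain ⟨j2, hj2⟩ := hfill z (min (F k₁ z) (z + ε / 4)) (lt_min hzlt (by linarith))
        (min_le_left _ _)
      have hj2k := hle j2 k₁ z (by rw [hj2]; exact min_le_left _ _)
      have hj2le : F j2 z ≤ z + ε / 4 := by
        rw [hj2]
        exact min_le_right _ _
      have key : ∀ j', (∀ t, F j' t ≤ F j1 t) → (∀ t, F j' t ≤ F j2 t) →
          (F j')^[n + 1] s < s + ε := by
        intro j' a b
        rw [Function.iterate_succ_apply']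
        have h1 : (F j')^[n] s ≤ z := (hit _ _ a n s).trans hj1'.le
        have h2 : F j' ((F j')^[n] s) ≤ F j' z := (hmono j').monotone h1
        have h3 := b z
        linarith
      rcases htot j1 j2 with h | h
      · exact ⟨j1, hj1, key j1 (fun _ => le_rfl) h⟩
      · exact ⟨j2, hj2k, key j2 h (fun _ => le_rfl)⟩
  -- uniform displacement of `F k₁`
  obtain ⟨η, hη, hη2⟩ : ∃ η : ℝ, 0 < η ∧ ∀ s, s + η ≤ F k₁ s := by
    have hgc : Continuous (fun s => F k₁ s - s) := (hcont k₁).sub continuous_id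
    have hper : Function.Periodic (fun s => F k₁ s - s) L := by
      intro s
      have := (hF k₁).2.2.1 s
      simp only [this]
      ring
    obtain ⟨z, _, hz⟩ := isCompact_Icc.exists_isMinOn (nonempty_Icc.2 hL.le) hgc.continuousOn
    refine ⟨F k₁ z - z, by linarith [hgt k₁ z], ?_⟩
    intro s
    obtain ⟨w, hw, hsw⟩ := hper.exists_mem_Ico₀ hL s
    have h1 := hz (show w ∈ Icc 0 L from ⟨hw.1, hw.2.le⟩)
    have h2 : F k₁ z - z ≤ F k₁ w - w := h1
    have h3 : F k₁ s - s = F k₁ w - w := hsw
    linarith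
  have hnη : ∀ (n : ℕ) (s : ℝ), s + n * η ≤ (F k₁)^[n] s := by
    intro n s
    induction n with
    | zero => simp
    | succ n ih =>
      rw [Function.iterate_succ_apply']
      have := hη2 ((F k₁)^[n] s)
      push_cast
      linarith
  refine ⟨max 2 ⌈L / η⌉₊, le_max_left _ _, ?_⟩
  intro n hn s
  have hn1 : s + L ≤ (F k₁)^[n] s := by
    have h1 : L / η ≤ n := (Nat.le_ceil _).trans (by exact_mod_cast (le_max_right _ _).trans hn)
    rw [div_le_iff₀ hη] at h1
    linarith [hnη n s]
  set A : Set ℝ := {v | ∃ j, (∀ t, F j t ≤ F k₁ t) ∧ F j s = v ∧ (F j)^[n] s ≤ s + L} with hA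
  obtain ⟨j0, hj0, hj0'⟩ := hsmall s n L hL
  have hj0A : F j0 s ∈ A := ⟨j0, hj0, rfl, hj0'.le⟩
  have hbdd : BddAbove A := by
    refine ⟨F k₁ s, ?_⟩
    rintro v ⟨j, hj, rfl, _⟩
    exact hj s
  have hv0 : s < sSup A := (hgt j0 s).trans_le (le_csSup hbdd hj0A)
  have hv1 : sSup A ≤ F k₁ s := by
    apply csSup_le ⟨_, hj0A⟩
    rintro v ⟨j, hj, rfl, _⟩
    exact hj s
  obtain ⟨k, hk⟩ := hfill s (sSup A) hv0 hv1
  have hkk := hle k k₁ s (by rw [hk]; exact hv1)
  refine ⟨k, ?_⟩
  rcases lt_trichotomy ((F k)^[n] s) (s + L) with h | h | h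
  · exfalso
    have hstrict : ∀ t, F k t < F k₁ t := by
      rcases htri k k₁ with h1 | h1 | h1
      · exact h1
      · exact absurd (h1 s) (not_lt.2 (hkk s))
      · rw [h1] at h
        exact absurd hn1 (not_le.2 h)
    obtain ⟨j', hj1, hj2, hj3⟩ := hupp k hstrict s n (s + L - (F k)^[n] s) (by linarith)
    have hmem : F j' s ∈ A := ⟨j', hj2, rfl, by linarith⟩
    have := le_csSup hbdd hmem
    have := hj1 s
    linarith
  · exact h
  · exfalso
    obtain ⟨j', hj1, hj2⟩ := hlow k hkk s n ((F k)^[n] s - (s + L)) (by linarith)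
    have hub : sSup A ≤ F j' s := by
      apply csSup_le ⟨_, hj0A⟩
      rintro v ⟨j, hj, rfl, hjn⟩
      by_contra hcon
      push Not at hcon
      have h1 := hit j' j (fun t => (hlt j' j s hcon t).le) n s
      linarith
    have := hj1 s
    linarith

end Pool.Agent.W797.BL
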